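import Pool.Agent.Q199.BB.Main

/-!
# MP_29f955_co: the density threshold for unrestricted sumsets `B + B` is never sharp in `F_7^ω`

Full negative answer to Q1: in the infinite countable group `G = F_7^ω` (`ℓ = r = 1`), which has
Folner sequences that are quasi-invariant with respect to doubling, for EVERY such Folner
sequence `Φ` every `A` with `d_Φ(A) = 1 - α_Φ / (ℓ + r)` contains `B + B` with `B` infinite.
-/

namespace Pool.Agent.Results.MP_29f955_co.NeverSharpInF7

open Filter Topology Pool.Agent.Q199.BB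

open Classical in
/-- Folner sequence of nonempty sets: `|(g + Φ_N) Δ Φ_N| / |Φ_N| → 0` for every `g`; here the
symmetric difference is split into its two halves `Φ_N \ (g + Φ_N)` and `(g + Φ_N) \ Φ_N`. -/
def Folner {K : Type*} [AddCommGroup K] (Φ : ℕ → Finset K) : Prop :=
  (∀ N, (Φ N).Nonempty) ∧ ∀ g : K, Tendsto (fun N =>
    ((((Φ N).filter (fun x => x - g ∉ Φ N)).card : ℝ) +
      (((Φ N).filter (fun x => x + g ∉ Φ N)).card : ℝ)) / (Φ N).card) atTop (𝓝 0)

open Classical in
/-- Upper density along `Φ`. -/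
noncomputable def upperDensity {K : Type*} (Φ : ℕ → Finset K) (A : Set K) : ℝ :=
  limsup (fun N => (((Φ N).filter (fun x => x ∈ A)).card : ℝ) / (Φ N).card) atTop

open Classical in
/-- Doubling ratio `α_Φ = liminf #{g ∈ Φ_N : 2g ∈ Φ_N} / |Φ_N|`. -/
noncomputable def doublingRatio {K : Type*} [AddCommGroup K] (Φ : ℕ → Finset K) : ℝ :=
  liminf (fun N => (((Φ N).filter (fun x => 2 • x ∈ Φ N)).card : ℝ) / (Φ N).card) atTop

/-- `B + B ⊆ A` for some infinite `B` (with `b + b` included). -/
def ContainsBB {K : Type*} [AddCommGroup K] (A : Set K) : Prop :=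
  ∃ B : Set K, B.Infinite ∧ ∀ x ∈ B, ∀ y ∈ B, x + y ∈ A

/-- `ℓ = [K : 2K]`. -/
noncomputable def ell (K : Type) [AddCommGroup K] : ℕ := (nsmulAddMonoidHom 2 : K →+ K).range.index

/-- `r = |ker D|`. -/
noncomputable def rr (K : Type) [AddCommGroup K] : ℕ := Nat.card (nsmulAddMonoidHom 2 : K →+ K).ker

/-- The property asked for in Q1, for the group `K` and the Folner sequence `Φ`. -/
def SharpFor {K : Type} [AddCommGroup K] (Φ : ℕ → Finset K) : Prop :=
  ∃ A : Set K, upperDensity Φ A = 1 - doublingRatio Φ / (ell K + rr K) ∧ ¬ ContainsBB A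

lemma folner_iff {Φ : ℕ → Finset (ℕ →₀ ZMod 7)} (h : Folner Φ) : IsFolner Φ := by
  classical
  intro g
  obtain ⟨hne, hlim⟩ := h
  have h1 : ∀ N, (0 : ℝ) < (Φ N).card := fun N => by
    have := (hne N).card_pos
    exact_mod_cast this
  have h2 : Tendsto (fun N => 1 - ((((Φ N).filter (fun x => x - g ∉ Φ N)).card : ℝ) +
      (((Φ N).filter (fun x => x + g ∉ Φ N)).card : ℝ)) / (Φ N).card) atTop (𝓝 1) := by
    have h3 := (hlim g).const_sub 1
    rw [sub_zero] at h3
    convert h3
  refine tendsto_of_tendsto_of_tendsto_of_le_of_le h2 tendsto_const_nhds (fun N => ?_)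
    (fun N => ?_)
  · have h3 : (((Φ N).filter (fun x => x - g ∈ Φ N)).card : ℝ) +
        (((Φ N).filter (fun x => x - g ∉ Φ N)).card : ℝ) = (Φ N).card := by
      exact_mod_cast Finset.card_filter_add_card_filter_not (s := Φ N) (fun x => x - g ∈ Φ N)
    have h4 : (0 : ℝ) ≤ (((Φ N).filter (fun x => x + g ∉ Φ N)).card : ℝ) := Nat.cast_nonneg _
    have h5 : (1 : ℝ) - ((((Φ N).filter (fun x => x - g ∉ Φ N)).card : ℝ) +
        (((Φ N).filter (fun x => x + g ∉ Φ N)).card : ℝ)) / (Φ N).card ≤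
        (((Φ N).filter (fun x => x - g ∈ Φ N)).card : ℝ) / (Φ N).card := by
      rw [sub_le_iff_le_add, ← add_div, le_div_iff₀ (h1 N)]
      linarith
    convert h5
    rfl
  · have h3 : (((Φ N).filter (fun x => x - g ∈ Φ N)).card : ℝ) ≤ (Φ N).card := by
      exact_mod_cast Finset.card_filter_le _ _
    have h4 : (((Φ N).filter (fun x => x - g ∈ Φ N)).card : ℝ) / (Φ N).card ≤ 1 := by
      rw [div_le_one (h1 N)]
      exact h3
    convert h4
    rfl

/-- Negative answer to Q1. -/
theorem result :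
    -- the group: countable, infinite, `ℓ = r = 1`
    (Countable (ℕ →₀ ZMod 7) ∧ Infinite (ℕ →₀ ZMod 7) ∧ ell (ℕ →₀ ZMod 7) = 1 ∧
      rr (ℕ →₀ ZMod 7) = 1) ∧
    -- it has Folner sequences that are quasi-invariant with respect to doubling
    (∃ Φ : ℕ → Finset (ℕ →₀ ZMod 7), Folner Φ ∧ doublingRatio Φ = 1 ∧ ¬ SharpFor Φ) ∧
    -- none of them has the property asked for
    (∀ Φ : ℕ → Finset (ℕ →₀ ZMod 7), Folner Φ → 0 < doublingRatio Φ → ¬ SharpFor Φ) ∧
    -- the stronger theorem
    (∀ Φ : ℕ → Finset (ℕ →₀ ZMod 7), Folner Φ → ∀ A : Set (ℕ →₀ ZMod 7),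
      1 - 2 / 3 * doublingRatio Φ < upperDensity Φ A → ContainsBB A) := by
  have hmain : ∀ Φ : ℕ → Finset (ℕ →₀ ZMod 7), Folner Φ → ∀ A : Set (ℕ →₀ ZMod 7),
      1 - 2 / 3 * doublingRatio Φ < upperDensity Φ A → ContainsBB A := by
    intro Φ hΦ A hA
    by_contra hcon
    have h1 : udens Φ A ≤ 1 - 2 / 3 * dratio Φ := bound A hcon Φ (folner_iff hΦ)
    have h2 : 1 - 2 / 3 * dratio Φ < udens Φ A := hA
    linarith
  have hell : ell (ℕ →₀ ZMod 7) = 1 := index_two
  have hrr : rr (ℕ →₀ ZMod 7) = 1 := card_ker_two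
  have hno : ∀ Φ : ℕ → Finset (ℕ →₀ ZMod 7), Folner Φ → 0 < doublingRatio Φ →
      ¬ SharpFor Φ := by
    rintro Φ hΦ hα ⟨A, hA, hcon⟩
    refine hcon (hmain Φ hΦ A ?_)
    rw [hA, hell, hrr]
    push_cast
    linarith
  refine ⟨⟨inferInstance, inf_G, hell, hrr⟩, ?_, hno, hmain⟩
  have hwin : Folner win := by
    classical
    refine ⟨win_nonempty, fun g => ?_⟩
    refine tendsto_const_nhds.congr' (Filter.eventually_atTop.mpr
      ⟨g.support.sup id + 1, fun N hN => ?_⟩)
    have hg : ∀ i, N ≤ i → g i = 0 := by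
      intro i hi
      by_contra hne
      have h2 : i ∈ g.support := Finsupp.mem_support_iff.mpr hne
      have h3 : i ≤ g.support.sup id := Finset.le_sup (f := id) h2
      omega
    have hw1 : ∀ x ∈ win N, x - g ∈ win N := fun x hx => mem_win_of_support (fun i hi => by
      rw [Finsupp.sub_apply, support_of_mem_win hx i hi, hg i hi, sub_zero])
    have hw2 : ∀ x ∈ win N, x + g ∈ win N := fun x hx => mem_win_of_support (fun i hi => by
      rw [Finsupp.add_apply, support_of_mem_win hx i hi, hg i hi, add_zero])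
    have hc1 : ∀ inst : DecidablePred (fun x => x - g ∉ win N),
        @Finset.filter _ (fun x => x - g ∉ win N) inst (win N) = ∅ := by
      intro inst
      ext x
      rw [Finset.mem_filter]
      exact ⟨fun h => absurd (hw1 x h.1) h.2, fun h => absurd h (Finset.notMem_empty x)⟩
    have hc2 : ∀ inst : DecidablePred (fun x => x + g ∉ win N),
        @Finset.filter _ (fun x => x + g ∉ win N) inst (win N) = ∅ := by
      intro inst
      ext x
      rw [Finset.mem_filter]
      exact ⟨fun h => absurd (hw2 x h.1) h.2, fun h => absurd h (Finset.notMem_empty x)⟩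
    beta_reduce
    rw [hc1, hc2]
    simp
  exact ⟨win, hwin, dratio_win, hno win hwin (by
    have : doublingRatio win = 1 := dratio_win
    rw [this]; norm_num)⟩

end Pool.Agent.Results.MP_29f955_co.NeverSharpInF7
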